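import Pool.Agent.helper30.QP.SpecK
import Pool.Agent.helper99.IG.ME

/-!
MP_ebc808, project QP (Theorem Q*), row KEY: one small coefficient for every prime
-/

set_option autoImplicit false

open Polynomial Pool.Agent.helper7.IG

noncomputable section

namespace Pool.Agent.QP

theorem KEY_an {l B : ℕ} {u : Vx} (h : u ∈ AN l B) : Nb l (B, 1) u := by
  unfold AN at h
  split_ifs at h with hf
  · exact (Set.Finite.mem_toFinset hf).1 h
  · exact absurd h (Finset.notMem_empty _)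

theorem KEY_odd {l B : ℕ} (hl : Odd l) (hB : Odd B) {u : Vx} (h : Nb l (B, 1) u) : Odd u.1 := by
  rcases h with ⟨h1, _⟩ | ⟨h1, _⟩
  · rw [h1]
    exact hl.mul hB
  · have h2 : B = l * u.1 := h1
    rw [h2] at hB
    exact (Nat.odd_mul.1 hB).2

theorem KEY_aev {x : LL} (hx : x ∈ MM) (Q : Polynomial kk) : aeval x Q ∈ MM := by
  have h : Algebra.adjoin kk {x} ≤ MM.toSubalgebra := Algebra.adjoin_le (Set.singleton_subset_iff.2 hx)
  exact h (Polynomial.aeval_mem_adjoin_singleton kk x)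

theorem KEY_ane {e : ℕ} (he : e ≠ 0) (ζ : kkˣ) {Q : Polynomial kk} (hQ : Q ≠ 0) : aeval (sig e ζ DDk) Q ≠ 0 := by
  intro h
  exact hQ ((transcendental_iff.1 (ME_transc_sig he ζ)) Q h)

theorem KEY_inclC (a : kk) : incl (C a : Polynomial kk) = algebraMap kk LL a := by
  show HahnSeries.ofPowerSeries ℤ kk (((C a : Polynomial kk) : PowerSeries kk)) = HahnSeries.C a
  rw [Polynomial.coe_C, HahnSeries.ofPowerSeries_C]

/-- the arithmetic at the end -/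
theorem KEY_ar (C₁ M l B : ℕ) (o m : ℤ) (hl : 5 ≤ l) (hB : 0 < B) (ho : o = B * m)
    (h : o ≤ ((B * (C₁ * (l + 1) * (M * (l + 2))) : ℕ) : ℤ)) : m ≤ ((2 * C₁ * M * l ^ 2 : ℕ) : ℤ) := by
  have hB' : (0 : ℤ) < B := by exact_mod_cast hB
  have h1 : m ≤ ((C₁ * (l + 1) * (M * (l + 2)) : ℕ) : ℤ) := by
    rw [ho] at h
    push_cast at h ⊢
    exact le_of_mul_le_mul_left (by simpa [mul_assoc] using h) hB'
  refine h1.trans ?_
  have h2 : (l + 1) * (l + 2) ≤ 2 * l ^ 2 := by nlinarith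
  have h3 : C₁ * (l + 1) * (M * (l + 2)) ≤ 2 * C₁ * M * l ^ 2 := by
    calc C₁ * (l + 1) * (M * (l + 2)) = C₁ * M * ((l + 1) * (l + 2)) := by ring
      _ ≤ C₁ * M * (2 * l ^ 2) := Nat.mul_le_mul_left _ h2
      _ = 2 * C₁ * M * l ^ 2 := by ring
  exact_mod_cast h3

theorem KEY (hLEMC : LEMC_stmt) (hPMM : PMM_stmt) (hINT : INT_stmt) (hYIN : YIN_stmt) (hNVH : NVH_stmt) (hORB : ORB_stmt) (hFRA : FRA_stmt) (hPOL : POL_stmt) (hHTL : HTL_stmt) (hHHC : HHC_stmt) (hINO : INO_stmt) (hME : ME_stmt) : KEY_stmt := by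
  intro F N hF hneg hsq hcop hnc
  have hodd : Odd N := by
    rw [← Nat.coprime_two_right]
    exact Nat.Coprime.coprime_dvd_right (by norm_num) hcop
  have hF'M : PN N F ∈ MM := hPMM N F hodd hsq hF.1
  have hnc' : ∀ c : kk, PN N F ≠ algebraMap kk LL c := by
    intro c hc
    obtain ⟨c', hc'⟩ := hLEMC F N hF hsq hcop ⟨1, C c, one_ne_zero, by rw [map_one, one_mul, hc, KEY_inclC]⟩
    exact hnc c' hc'
  obtain ⟨Q, M, hQ0, hDen⟩ := hINT (PN N F) hF'M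
  obtain ⟨C₁, hC₁⟩ := hORB N hodd hsq
  refine ⟨2 * C₁ * M, fun l hl hl5 hNl => ?_⟩
  have hl2 : l ≠ 2 := by omega
  have hl3 : l ≠ 3 := by omega
  have hlodd : Odd l := hl.odd_of_ne_two hl2
  obtain ⟨B1, hB1o, hB1⟩ := hNVH F N l hF hodd hsq hl hl2 hl3 hNl hnc'
  obtain ⟨B2, hB2o, hB2⟩ := hC₁ F l hF hl hl2 hl3 hNl
  set B : ℕ := B1 * B2 * l with hBdef
  have hBo : Odd B := (hB1o.mul hB2o).mul hlodd
  have hB0 : B ≠ 0 := by
    intro h
    rw [h] at hBo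
    exact absurd hBo (by decide)
  have hBpos : 0 < B := Nat.pos_of_ne_zero hB0
  have hlB : l ∣ B := dvd_mul_left _ _
  have h1B : B1 ∣ B := (dvd_mul_right B1 B2).trans (dvd_mul_right _ _)
  have h2B : B2 ∣ B := (dvd_mul_left B2 B1).trans (dvd_mul_right _ _)
  have hHU : HU l B (PN N F) (l * B, 1) ≠ 0 := hB1 B hBo h1B
  have hPI : PI0 Q l B ≠ 0 := by
    unfold PI0
    refine mul_ne_zero (KEY_ane hB0 1 hQ0) (Finset.prod_ne_zero_iff.2 fun u hu => ?_)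
    have h3 := KEY_odd hlodd hBo (KEY_an hu)
    refine KEY_ane ?_ u.2 hQ0
    intro h4
    rw [h4] at h3
    exact absurd h3 (by decide)
  have hY : YU (PN N F) Q l B (l * B, 1) ≠ 0 := mul_ne_zero hPI hHU
  have hPIM : PI0 Q l B ∈ MM := by
    unfold PI0
    refine mul_mem (KEY_aev (hME B 1 DDk hBo DDk_mem) Q) (prod_mem fun u hu => ?_)
    exact KEY_aev (hME u.1 u.2 DDk (KEY_odd hlodd hBo (KEY_an hu)) DDk_mem) Q
  have hHUM : HU l B (PN N F) (l * B, 1) ∈ MM := by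
    classical
    unfold HU
    refine add_mem (hME B 1 _ hBo hF'M) (sum_mem fun u hu => ?_)
    have hu' : u ∈ AN l B := by
      rw [Finset.mem_erase] at hu
      exact hu.2
    exact hME u.1 u.2 _ (KEY_odd hlodd hBo (KEY_an hu')) hF'M
  have hYM : YU (PN N F) Q l B (l * B, 1) ∈ MM := mul_mem hPIM hHUM
  obtain ⟨hYint, hPint, hYval⟩ := hYIN (PN N F) Q M l B (l * B, 1) hDen hl hl2 hBo hlB
  obtain ⟨Φ, hΦ⟩ := hFRA
  obtain ⟨O, hOc, hO⟩ := hB2 Q Φ B hBo h2B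
  obtain ⟨s, P, hP0, hPd, hPc, hPe⟩ := hPOL Φ hΦ B (YU (PN N F) Q l B (l * B, 1)) O hBo hYM hO
  set Y : LL := YU (PN N F) Q l B (l * B, 1) with hYdef
  obtain ⟨n, hn, hnc⟩ := hHTL B (M * (l + 2) * 2 ^ s) (C₁ * (l + 1)) (Y ^ (2 ^ s)) hB0 (pow_ne_zero _ hY) (hYint.pow _)
    (fun V hV hx => by
      rw [map_pow, pow_mul]
      exact pow_le_pow_left' (hYval V hV hx) _)
    ⟨P, hP0, hPd.trans hOc, hPc, hPe⟩
  have ho1 : (Y ^ (2 ^ s)).order ≤ (n : ℤ) := HahnSeries.order_le_of_coeff_ne_zero hnc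
  rw [HahnSeries.order_pow, nsmul_eq_mul] at ho1
  have ho2 : Y.order ≤ ((B * (C₁ * (l + 1) * (M * (l + 2))) : ℕ) : ℤ) := by
    have h5 : (n : ℤ) ≤ ((B * (C₁ * (l + 1) * (M * (l + 2) * 2 ^ s)) : ℕ) : ℤ) := by exact_mod_cast hn
    have h6 : ((2 ^ s : ℕ) : ℤ) * Y.order ≤ ((2 ^ s : ℕ) : ℤ) * ((B * (C₁ * (l + 1) * (M * (l + 2))) : ℕ) : ℤ) := by
      refine (ho1.trans h5).trans (le_of_eq ?_)
      push_cast
      ring
    exact le_of_mul_le_mul_left h6 (by positivity)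
  have ho3 : Y.order = (PI0 Q l B).order + (HU l B (PN N F) (l * B, 1)).order := HahnSeries.order_mul hPI hHU
  have ho4 : 0 ≤ (PI0 Q l B).order := by
    by_contra h7
    push Not at h7
    exact hPI (HahnSeries.coeff_order_eq_zero.1 (hINO B 1 _ hB0 hPint _ h7))
  have ho5 : (HU l B (PN N F) (l * B, 1)).order ≤ ((B * (C₁ * (l + 1) * (M * (l + 2))) : ℕ) : ℤ) := by
    linarith
  have ho6 : (HU l B (PN N F) (l * B, 1)).coeff (HU l B (PN N F) (l * B, 1)).order ≠ 0 :=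
    fun h8 => hHU (HahnSeries.coeff_order_eq_zero.1 h8)
  rw [hHHC l B (PN N F) hl hl2 hBo hlB] at ho6
  split_ifs at ho6 with hd
  · obtain ⟨m, hm⟩ := hd
    have hB' : (B : ℤ) ≠ 0 := by exact_mod_cast hB0
    rw [hm, Int.mul_ediv_cancel_left _ hB'] at ho6
    have hm0 : 0 ≤ m := by
      by_contra h9
      push Not at h9
      apply ho6
      have h10 : (l : ℤ) * m < 0 := by
        have hl' : (0 : ℤ) < l := by exact_mod_cast hl.pos
        nlinarith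
      rw [PN_coeff, PN_coeff, hneg _ h9, hneg _ h10, ite_self, ite_self, add_zero]
    obtain ⟨m', rfl⟩ := Int.eq_ofNat_of_zero_le hm0
    refine ⟨m', ?_, ?_⟩
    · exact_mod_cast KEY_ar C₁ M l B _ _ hl5 hBpos hm ho5
    · push_cast
      exact ho6
  · exact absurd rfl ho6

end Pool.Agent.QP
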